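import Pool.Agent.H627.LR.Fnl

/-!
# A lower bound for canonical heights of points with small residue degrees, for all rational maps

Let `K` be a number field, `f` a rational map of degree `d ≥ 2` over `K`, and `v` a finite place
of `K` at which `f` has good reduction. For all `m` and `B` there is a constant `C > 0` such that
`ĥ(P) ≥ 1 / (C * D ^ C)` for all finite extensions `L` of `K`, of degree `D`, in which a
proportion of at least `1 / B` of the primes above `v`, counted with their local degrees, have
residue degree at most `m` over `v`, and for all wandering points `P` of `P^1(L)`. The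
ramification above `v` is arbitrary.
-/

set_option autoImplicit false

namespace Pool.Agent.Results.MP_2194ec_nt.BoundedResidue

open MvPolynomial NumberField Module Filter Topology

/-- Two binary forms over the number field `K` have *good reduction* at the finite place `v`: the
coefficients are `v`-integral, and for some `n` the powers `X_j ^ n` of the variables are
combinations of the two forms whose coefficients are polynomials with `v`-integral coefficients
(equivalently, the reductions of the two forms have no common zero over an algebraic closure of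
the residue field, except zero). -/
def GoodReduction {K : Type} [Field K] [NumberField K] (v : FinitePlace K)
    (F : Fin 2 → MvPolynomial (Fin 2) K) : Prop :=
  (∀ i s, v ((F i).coeff s) ≤ 1) ∧
  ∃ (n : ℕ) (U : Fin 2 → Fin 2 → MvPolynomial (Fin 2) K),
    (∀ j i s, v ((U j i).coeff s) ≤ 1) ∧ ∀ j, X j ^ n = ∑ i, U j i * F i

/-- the map defined by two binary forms, on coordinate vectors over an extension -/
noncomputable def evalMap {K L : Type} [Field K] [Field L] [Algebra K L]
    (F : Fin 2 → MvPolynomial (Fin 2) K) (y : Fin 2 → L) : Fin 2 → L :=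
  fun i => aeval y (F i)

/-- the point with coordinate vector `x` is wandering: its iterates are pairwise distinct points
of the projective line -/
def Wandering {K L : Type} [Field K] [Field L] [Algebra K L]
    (F : Fin 2 → MvPolynomial (Fin 2) K) (x : Fin 2 → L) : Prop :=
  ¬ ∃ m n : ℕ, m ≠ n ∧ ∃ c : L, c ≠ 0 ∧ (evalMap F)^[n] x = c • (evalMap F)^[m] x

/-- `h` is the canonical height of the point with coordinate vector `x` over the number field `L`:
the limit of `h(F^n(x)) / d ^ n`, where `h` is the absolute logarithmic Weil height, that is
Mathlib's (relative) `Height.logHeight` divided by `[L : ℚ]` -/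
def IsCanonicalHeight {K L : Type} [Field K] [Field L] [NumberField L] [Algebra K L]
    (F : Fin 2 → MvPolynomial (Fin 2) K) (d : ℕ) (x : Fin 2 → L) (h : ℝ) : Prop :=
  Tendsto (fun n : ℕ => Height.logHeight ((evalMap F)^[n] x) /
    ((finrank ℚ L : ℝ) * (d : ℝ) ^ n)) atTop (𝓝 h)

/-- **Main result.** -/
theorem result (K : Type) [Field K] [NumberField K] (d : ℕ) (hd : 2 ≤ d)
    -- the rational map, with good reduction at `v`
    (F : Fin 2 → MvPolynomial (Fin 2) K) (hF : ∀ i, (F i).IsHomogeneous d)
    (v : FinitePlace K) (hred : GoodReduction v F) (m B : ℕ) :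
    ∃ C : ℝ, 0 < C ∧ ∀ (L : Type) [Field L] [NumberField L] [Algebra K L]
      -- primes of `L` above `v`, of residue degrees at most `m`, whose local degrees add up to
      -- at least `[L : K] / B`
      (T : Finset (Ideal (𝓞 L))),
      (∀ 𝔓 ∈ T, 𝔓.IsPrime ∧ 𝔓.under (𝓞 K) = v.maximalIdeal.asIdeal ∧
        𝔓.inertiaDeg (𝓞 K) ≤ m) →
      finrank K L ≤ B * ∑ 𝔓 ∈ T, 𝔓.ramificationIdx (𝓞 K) * 𝔓.inertiaDeg (𝓞 K) →
      ∀ x : Fin 2 → L, x ≠ 0 → Wandering F x →
      ∃ h : ℝ, IsCanonicalHeight F d x h ∧ 1 / (C * (finrank K L : ℝ) ^ C) ≤ h :=
  H627.LR.bounded hd F hF v hred m B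

end Pool.Agent.Results.MP_2194ec_nt.BoundedResidue
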